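import Pool.Agent.R267.Schl3

set_option autoImplicit false

open Filter Topology
open Pool.Agent.R267.SC

/-!
The dual of Schlumprecht space has an equivalent norm for which the canonical basis is
isometrically greedy.
-/

namespace Pool.Agent.Results.MP_439cf8_an.GreedyRenormingDual

/-- `M` is a norm equivalent to the given norm of `V` -/
def EquivalentNorm {V : Type} [NormedAddCommGroup V] [NormedSpace ℝ V] (M : Seminorm ℝ V) : Prop :=
  ∃ c C : ℝ, 0 < c ∧ 0 < C ∧ ∀ f : V, c * ‖f‖ ≤ M f ∧ M f ≤ C * ‖f‖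

/-- the sequence `v` with coordinate functionals `coord` is isometrically greedy for the norm `M` -/
def IsometricallyGreedy {V : Type} [AddCommGroup V] [Module ℝ V] (M : Seminorm ℝ V) (v : ℕ → V)
    (coord : ℕ → V → ℝ) : Prop :=
  ∀ (f : V) (A : Finset ℕ), (∀ n ∈ A, ∀ k, k ∉ A → |coord k f| ≤ |coord n f|) →
    ∀ (B : Finset ℕ) (b : ℕ → ℝ), B.card ≤ A.card →
      M (f - ∑ n ∈ A, coord n f • v n) ≤ M (f - ∑ n ∈ B, b n • v n)

/-- The dual of the Banach space `S` with basis `e` has an equivalent norm for which the sequence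
of the coordinate functionals of `e` is isometrically greedy; the coordinates of `φ` in the dual are
the numbers `φ (e n)`. -/
def DualGreedyRenorming (S : Type) [NormedAddCommGroup S] [NormedSpace ℝ S] (e : ℕ → S) : Prop :=
  ∃ es : ℕ → StrongDual ℝ S, (∀ m n, es m (e n) = if m = n then 1 else 0) ∧
    ∃ M : Seminorm ℝ (StrongDual ℝ S),
      EquivalentNorm M ∧ IsometricallyGreedy M es (fun n φ => φ (e n))

/-- Schlumprecht space: the completion of `c₀₀` in the norm `N` (the solution of
`IsSchlumprecht`) -/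
def Space (N : Seminorm ℝ (ℕ →₀ ℝ)) : Type := UniformSpace.Completion (C00 N)

noncomputable instance (N : Seminorm ℝ (ℕ →₀ ℝ)) : NormedAddCommGroup (Space N) :=
  UniformSpace.Completion.instNormedAddCommGroup (C00 N)

noncomputable instance (N : Seminorm ℝ (ℕ →₀ ℝ)) : NormedSpace ℝ (Space N) :=
  UniformSpace.Completion.instNormedSpace ℝ (C00 N)

/-- the unit vectors of Schlumprecht space -/
noncomputable def unitVec (N : Seminorm ℝ (ℕ →₀ ℝ)) (n : ℕ) : Space N :=
  ((toC00 N (Finsupp.single n 1) : C00 N) : UniformSpace.Completion (C00 N))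

lemma main : DualGreedyRenorming (Compl nrm) (evec nrm) := by
  refine ⟨es, es_evec, Pool.Agent.R267.GR.nn DS, ?_, ?_⟩
  · have h2 : DS.C2 = 4 := rfl
    have h1 : DS.C1 = 1 := rfl
    have h3 : DS.C3 = 1 := rfl
    refine ⟨4⁻¹, 2, by norm_num, by norm_num, fun f => ⟨?_, ?_⟩⟩
    · have := Pool.Agent.R267.GR.nn_lower DS f
      rwa [h2] at this
    · have := Pool.Agent.R267.GR.nn_upper DS f
      rw [h1, h3] at this
      linarith
  · intro f A hA B b hBA
    have hx : ∀ n (φ : StrongDual ℝ (Compl nrm)), DS.xs n φ = φ (evec nrm n) := fun n φ => rfl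
    have h := Pool.Agent.R267.GR.one_greedy DS.xs es
      (fun m n => by
        rw [hx, es_evec]
        by_cases h' : m = n
        · rw [if_pos h', if_pos h'.symm]
        · rw [if_neg h', if_neg (fun h'' => h' h''.symm)])
      (fun φ => Pool.Agent.R267.GR.nn DS φ)
      (fun φ φ' h => Pool.Agent.R267.GR.nn_lattice DS φ φ' h)
      (fun φ φ' h => Pool.Agent.R267.GR.nn_eq DS φ φ' h) f A B b
      (fun n hn k hk => hA n hn k hk) hBA
    exact h

theorem result :
    ∃ N : Seminorm ℝ (ℕ →₀ ℝ), IsSchlumprecht N ∧ (∀ N', IsSchlumprecht N' → N' = N) ∧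
      DualGreedyRenorming (Space N) (unitVec N) :=
  ⟨nrm, isSchlumprecht_nrm, fun N' hN' => schlumprecht_unique N' nrm hN' isSchlumprecht_nrm, main⟩

end Pool.Agent.Results.MP_439cf8_an.GreedyRenormingDual
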